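import Pool.Agent.W858.SG.Dens2
import Pool.Agent.TH377.Sup.Good

/-!
# Density: the proof of `Pool.Agent.TH377.Sup.density_vec` for general conditions
-/

set_option autoImplicit false

namespace Pool.Agent.V11235.SK

open Polynomial WithZero NumberField IsDedekindDomain Pool.Agent.W858.SF Pool.Agent.W858.SG
open Pool.Agent.TH377.Sup
open Pool.Agent.TH120.Sec (red)

theorem density_gen {R : Type} [CommRing R]
    {L : Type} [Field L] [NumberField L] (P : R →+* L)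
    (hint : AE fun v : HeightOneSpectrum (𝓞 L) => ∀ r, v.valuation L (P r) ≤ 1)
    (hM : ∃ M : ℤ, M ≠ 0 ∧ ∀ y : 𝓞 L, ∃ r : R, (M : L) * algebraMap (𝓞 L) L y = P r)
    (N : ℕ) (G : (Fin N → R) → Prop) (GV : ∀ v : HeightOneSpectrum (𝓞 L),
      Set (Fin N → 𝓞 L ⧸ v.asIdeal ^ 2)) (Q : HeightOneSpectrum (𝓞 L) → Prop) (δ : ℝ)
    (hsup : ∀ D : 𝓞 L, D ≠ 0 → ∀ ε : ℝ, 0 < ε → ∃ T : Finset (HeightOneSpectrum (𝓞 L)),
      (∀ v ∈ T, D ∉ v.asIdeal ∧ Q v) ∧ ∏ v ∈ T, (1 - δ * (1 / (Ideal.absNorm v.asIdeal : ℝ) -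
        1 / (Ideal.absNorm v.asIdeal : ℝ) ^ 2)) < ε)
    (hGc : ∀ v : HeightOneSpectrum (𝓞 L), Q v → (((GV v)ᶜ).ncard : ℝ) ≤
      (1 - δ * (1 / (Ideal.absNorm v.asIdeal : ℝ) - 1 / (Ideal.absNorm v.asIdeal : ℝ) ^ 2)) *
        ((Ideal.absNorm v.asIdeal : ℝ) ^ 2) ^ N)
    (hgood : AE fun v : HeightOneSpectrum (𝓞 L) => Q v → ∀ (c : Fin N → R) (y : Fin N → 𝓞 L),
      (∀ i, v.valuation L (P (c i) - algebraMap (𝓞 L) L (y i)) ≤ exp (-2)) →
      red (v.asIdeal ^ 2) N y ∈ GV v → G c)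
    (ε : ℝ) (hε : 0 < ε) :
    ∃ I : Ideal R, Finite (R ⧸ I) ∧
      (Set.ncard ((fun (c : Fin N → R) i => Ideal.Quotient.mk I (c i)) ''
        {c | ¬ G c}) : ℝ) ≤ ε * (Nat.card (R ⧸ I) : ℝ) ^ N := by
  classical
  obtain ⟨M, hM0, hM⟩ := hM
  obtain ⟨N1, hN1, hhint⟩ := hint
  obtain ⟨N2, hN2, hhgood⟩ := hgood
  have hMO : (M : 𝓞 L) ≠ 0 := by exact_mod_cast hM0
  obtain ⟨T, hT, hTε⟩ := hsup (N1 * (M : 𝓞 L) * N2) (mul_ne_zero (mul_ne_zero hN1 hMO) hN2) ε hε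
  have hTN1 : ∀ v ∈ T, N1 ∉ v.asIdeal := fun v hv h => (hT v hv).1
    (Ideal.mul_mem_right _ _ (Ideal.mul_mem_right _ _ h))
  have hTM : ∀ v ∈ T, (M : 𝓞 L) ∉ v.asIdeal := fun v hv h => (hT v hv).1
    (Ideal.mul_mem_right _ _ (Ideal.mul_mem_left _ _ h))
  have hTN2 : ∀ v ∈ T, N2 ∉ v.asIdeal := fun v hv h => (hT v hv).1
    (Ideal.mul_mem_left _ _ h)
  have hPint : ∀ v ∈ T, ∀ r, v.valuation L (P r) ≤ 1 := fun v hv => hhint v (hTN1 v hv)
  -- the good coefficients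
  have hfine : ∀ v ∈ T, ∀ (c : Fin N → R) (y : Fin N → 𝓞 L),
      (∀ i, v.valuation L (P (c i) - algebraMap (𝓞 L) L (y i)) ≤ exp (-2)) →
      red (v.asIdeal ^ 2) N y ∈ GV v → G c := fun v hv => hhgood v (hTN2 v hv) (hT v hv).2
  set E : Set (Fin N → R) := {c | ¬ G c} with hE
  set J := ∏ v ∈ T, v.asIdeal ^ 2 with hJ
  have hJ0 : J ≠ ⊥ := Finset.prod_ne_zero_iff.2 fun v _ => pow_ne_zero _ v.ne_bot
  have hfinJ : Finite (𝓞 L ⧸ J) := Ideal.finiteQuotientOfFreeOfNeBot _ hJ0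
  -- the ideal
  let I : Ideal R :=
    { carrier := {r | ∀ v ∈ T, v.valuation L (P r) ≤ exp (-2)}
      add_mem' := by
        intro r s hr hs v hv
        rw [map_add]
        exact (Valuation.map_add _ _ _).trans (max_le (hr v hv) (hs v hv))
      zero_mem' := by
        intro v hv
        rw [map_zero, map_zero]
        exact zero_le
      smul_mem' := by
        intro r s hs v hv
        rw [smul_eq_mul, map_mul, map_mul, mul_comm]
        exact mul_le_of_le_of_le_one (hs v hv) (hPint v hv r) }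
  have hImem : ∀ r, r ∈ I ↔ ∀ v ∈ T, v.valuation L (P r) ≤ exp (-2) := fun r => Iff.rfl
  have hcl : ∀ r r' : R, ∀ y y' : 𝓞 L,
      (∀ v ∈ T, v.valuation L (P r - algebraMap (𝓞 L) L y) ≤ exp (-2)) →
      (∀ v ∈ T, v.valuation L (P r' - algebraMap (𝓞 L) L y') ≤ exp (-2)) →
      (r - r' ∈ I ↔ y - y' ∈ J) := by
    intro r r' y y' h1 h2
    rw [hImem, hJ, mem_prod_iff]
    refine forall₂_congr fun v hv => ?_
    rw [← val_le_iff]
    constructor
    · intro h3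
      have h5 : algebraMap (𝓞 L) L (y - y') = P (r - r') - ((P r - algebraMap (𝓞 L) L y) -
        (P r' - algebraMap (𝓞 L) L y')) := by
        rw [map_sub, map_sub]
        ring
      rw [h5]
      exact (Valuation.map_sub _ _ _).trans (max_le h3
        ((Valuation.map_sub _ _ _).trans (max_le (h1 v hv) (h2 v hv))))
    · intro h3
      have h5 : P (r - r') = algebraMap (𝓞 L) L (y - y') + ((P r - algebraMap (𝓞 L) L y) -
        (P r' - algebraMap (𝓞 L) L y')) := by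
        rw [map_sub, map_sub]
        ring
      rw [h5]
      exact (Valuation.map_add _ _ _).trans (max_le h3
        ((Valuation.map_sub _ _ _).trans (max_le (h1 v hv) (h2 v hv))))
  have hex : ∀ r : R, ∃ y : 𝓞 L,
      ∀ v ∈ T, v.valuation L (P r - algebraMap (𝓞 L) L y) ≤ exp (-2) := fun r =>
    exists_int_near T (P r) fun v hv => hPint v hv r
  choose Y hY using hex
  have hsurj : ∀ y : 𝓞 L, ∃ r : R,
      ∀ v ∈ T, v.valuation L (P r - algebraMap (𝓞 L) L y) ≤ exp (-2) := by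
    intro y
    obtain ⟨r0, hr0⟩ := hM y
    obtain ⟨j, hj⟩ := exists_pow_one T (M : 𝓞 L) hTM
    refine ⟨(M : R) ^ j * r0, fun v hv => ?_⟩
    have h1 : P ((M : R) ^ j * r0) - algebraMap (𝓞 L) L y =
        algebraMap (𝓞 L) L (((M : 𝓞 L) ^ (j + 1) - 1) * y) := by
      rw [map_mul, ← hr0, map_pow, map_intCast]
      simp only [map_mul, map_sub, map_pow, map_intCast, map_one]
      ring
    rw [h1, val_le_iff]
    exact Ideal.mul_mem_right _ _ ((mem_prod_iff T _).1 hj v hv)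
  let b : R ⧸ I → 𝓞 L ⧸ J := fun q => Ideal.Quotient.mk J (Y (Quotient.out q))
  have hout : ∀ q : R ⧸ I, Ideal.Quotient.mk I (Quotient.out q) = q := fun q =>
    Quotient.out_eq q
  have hbmk : ∀ (r : R) (y : 𝓞 L),
      (∀ v ∈ T, v.valuation L (P r - algebraMap (𝓞 L) L y) ≤ exp (-2)) →
      b (Ideal.Quotient.mk I r) = Ideal.Quotient.mk J y := by
    intro r y hry
    change Ideal.Quotient.mk J _ = _
    rw [Ideal.Quotient.eq]
    refine (hcl _ r _ y (hY _) hry).1 ?_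
    rw [← Ideal.Quotient.eq]
    exact hout _
  have hbinj : Function.Injective b := by
    intro q q' hqq
    have h1 := Ideal.Quotient.eq.1 hqq
    rw [← hcl (Quotient.out q) (Quotient.out q') _ _ (hY _) (hY _), ← Ideal.Quotient.eq, hout,
      hout] at h1
    exact h1
  have hbsurj : Function.Surjective b := by
    intro z
    obtain ⟨y, rfl⟩ := Ideal.Quotient.mk_surjective z
    obtain ⟨r, hr⟩ := hsurj y
    exact ⟨Ideal.Quotient.mk I r, hbmk r y hr⟩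
  have hfinI : Finite (R ⧸ I) := Finite.of_injective b hbinj
  have hcard : Nat.card (R ⧸ I) = Nat.card (𝓞 L ⧸ J) :=
    Nat.card_congr (Equiv.ofBijective b ⟨hbinj, hbsurj⟩)
  refine ⟨I, hfinI, ?_⟩
  -- counting in the number field
  set E' : Set (Fin N → 𝓞 L) := {y | ∃ c ∈ E, ∀ v ∈ T, ∀ i,
    v.valuation L (P (c i) - algebraMap (𝓞 L) L (y i)) ≤ exp (-2)} with hE'
  obtain ⟨e, he⟩ := Pool.Agent.W417.SecC.D2.crt T
  have hfinv : ∀ v : T, Finite (𝓞 L ⧸ v.1.asIdeal ^ 2) := fun v =>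
    Pool.Agent.TH120.Sec.finite_sq v.1
  have hcardJ : (Nat.card (𝓞 L ⧸ J) : ℝ) = ∏ v ∈ T, (Ideal.absNorm v.asIdeal : ℝ) ^ 2 := by
    rw [hJ, Nat.card_congr e.toEquiv, Nat.card_pi, ← Finset.prod_coe_sort T]
    push_cast
    refine Finset.prod_congr rfl fun v _ => ?_
    rw [Pool.Agent.W417.SecC.D2.card_sq]
    push_cast
    rfl
  have hbad : ∀ y ∈ E', ∀ v : T, red (v.1.asIdeal ^ 2) N y ∈ (GV v.1)ᶜ := by
    rintro y ⟨c, hc, hcy⟩ v hy
    exact hc (hfine v.1 v.2 c y (hcy v.1 v.2) hy)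
  have h1 := Pool.Agent.TH120.Sec.countd J T (fun v => v.1.asIdeal ^ 2) e he hfinv N E'
    (fun v => (GV v.1)ᶜ) hbad
  have h1' : ((red J N '' E').ncard : ℝ) ≤ ∏ v : T, (((GV v.1)ᶜ).ncard : ℝ) := by
    exact_mod_cast h1
  have h2 := Pool.Agent.TH120.Sec.prod_bound T (fun v : T => (((GV v.1)ᶜ).ncard : ℝ))
    (fun v => (1 - δ * (1 / (Ideal.absNorm v.asIdeal : ℝ) -
        1 / (Ideal.absNorm v.asIdeal : ℝ) ^ 2)))
    (fun v => ((Ideal.absNorm v.asIdeal : ℝ) ^ 2) ^ N) (fun _ => Nat.cast_nonneg _)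
    (fun v => hGc v.1 (hT v.1 v.2).2)
  have h3 : ((red J N '' E').ncard : ℝ) ≤ ε * (Nat.card (𝓞 L ⧸ J) : ℝ) ^ N := by
    refine (h1'.trans h2).trans ?_
    rw [Finset.prod_pow, hcardJ]
    exact mul_le_mul_of_nonneg_right hTε.le
      (pow_nonneg (Finset.prod_nonneg fun _ _ => sq_nonneg _) _)
  have hle : Set.ncard ((fun (c : Fin N → R) i => Ideal.Quotient.mk I (c i)) '' E) ≤
      Set.ncard (red J N '' E') := by
    have hfr : Finite (Fin N → 𝓞 L ⧸ J) := inferInstance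
    refine Set.ncard_le_ncard_of_injOn (fun q i => b (q i)) ?_ ?_ (Set.toFinite _)
    · rintro _ ⟨c, hc, rfl⟩
      refine ⟨fun i => Y (c i), ⟨c, hc, fun v hv i => hY (c i) v hv⟩, ?_⟩
      funext i
      exact (hbmk (c i) _ (hY (c i))).symm
    · intro q _ q' _ h
      funext i
      exact hbinj (congrFun h i)
  rw [hcard]
  exact le_trans (by exact_mod_cast hle) h3

end Pool.Agent.V11235.SK
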