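import Pool.Agent.V11235.SK.Kum
import Pool.Agent.V11235.SE.Core
import Pool.Agent.V11235.SH.Loc
import Pool.Agent.TH377.Sup.EmbR

/-! The curves `a y^n = b x^m + c` over all extensions of the base field. -/

set_option autoImplicit false

namespace Pool.Agent.V11235.SK

open Polynomial WithZero NumberField IsDedekindDomain Pool.Agent.W858.SF Pool.Agent.TH377.Sup
open Pool.Agent.V11235.SH Pool.Agent.V11235.SE Pool.Agent.Y157.PS Pool.Agent.Y141.PS

theorem binom_natDegree {S : Type} [CommRing S] (b c : S) (hb : b ≠ 0) (m : ℕ) :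
    (C b * X ^ m + C c : S[X]).natDegree = m := by
  rw [natDegree_add_C, natDegree_C_mul_X_pow _ _ hb]

theorem binom_lc {S : Type} [CommRing S] (b c : S) (hb : b ≠ 0) (m : ℕ) (hm : 0 < m) :
    (C b * X ^ m + C c : S[X]).leadingCoeff = b := by
  rw [leadingCoeff, binom_natDegree b c hb, coeff_add, coeff_C_mul_X_pow, if_pos rfl, coeff_C,
    if_neg hm.ne', add_zero]

theorem binom_map {S T : Type} [CommRing S] [CommRing T] (φ : S →+* T) (b c : S) (m : ℕ) :
    (C b * X ^ m + C c : S[X]).map φ = C (φ b) * X ^ m + C (φ c) := by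
  rw [Polynomial.map_add, Polynomial.map_mul, Polynomial.map_pow, map_C, map_C, map_X]

theorem binom_sep {κ : Type} [Field κ] (b c : κ) (hb : b ≠ 0) (hc : c ≠ 0) (m : ℕ) (hm : 0 < m)
    (hmκ : (m : κ) ≠ 0) : (C b * X ^ m + C c : κ[X]).Separable := by
  have h1 : (C b * X ^ m + C c : κ[X]) = C b * (X ^ m - C (-c / b)) := by
    rw [mul_sub, ← C_mul, mul_div_cancel₀ _ hb, C_neg, sub_neg_eq_add]
  rw [h1]
  refine Separable.unit_mul (isUnit_C.2 hb.isUnit) ?_
  exact separable_X_pow_sub_C _ hmκ (div_ne_zero (neg_ne_zero.2 hc) hb)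

theorem emb_diag {L : Type} [Field L] [NumberField L] (v : HeightOneSpectrum (𝓞 L)) (p : ℕ)
    (hp : p.Prime) (hvp : Ideal.absNorm v.asIdeal = p)
    {R : Type} [CommRing R] {k : Type} [Field k] [CharZero k] [Algebra R k]
    (hinj : Function.Injective (algebraMap R k))
    (P : R →+* L) (ψ : k →+* v.adicCompletion L)
    (hPint : ∀ r, v.valuation L (P r) ≤ 1)
    (hψ : ∀ r, vv v (ψ (algebraMap R k r) - algebraMap L (v.adicCompletion L) (P r)) ≤ exp (-2))
    {d : ℕ} (h3 : 3 ≤ d) (hdp : d ∣ p - 1) (c : Fin 3 → R) (y : Fin 3 → 𝓞 L)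
    (hcy : ∀ i, v.valuation L (P (c i) - algebraMap (𝓞 L) L (y i)) ≤ exp (-2))
    (hy : y 0 ∈ v.asIdeal) (hy' : y 0 ∉ v.asIdeal ^ 2) (hy1 : y 1 ∉ v.asIdeal)
    (hpow : ∀ ℓ : ℕ, ℓ.Prime → ℓ ∣ d → ∀ r : 𝓞 L ⧸ v.asIdeal,
      Ideal.Quotient.mk v.asIdeal (y 1) * r ^ ℓ + Ideal.Quotient.mk v.asIdeal (y 2) ≠ 0) :
    algebraMap R k (c 0) ≠ 0 ∧ algebraMap R k (c 1) ≠ 0 ∧ algebraMap R k (c 2) ≠ 0 ∧
    (∀ ℓ : ℕ, ℓ.Prime → ℓ ∣ d → ∀ (K' : Type) [Field K'] [Algebra k K'] [FiniteDimensional k K'],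
      ¬ ℓ ∣ Module.finrank k K' → FineP ℓ (algebraMap k K' (algebraMap R k (c 0)))
        ((C (algebraMap R k (c 1)) * X ^ d + C (algebraMap R k (c 2))).map (algebraMap k K'))) ∧
    (∀ D : ℕ, D ≠ 0 → Nat.gcd 2 D * D ∣ d → ∀ (K' : Type) [Field K'] [Algebra k K']
      [FiniteDimensional k K'], ¬ (D : ℤ) ∣ (Module.finrank k K' : ℤ) →
        Data D K' (algebraMap k K' (algebraMap R k (c 0)))
          (fun _ : Unit => (C (algebraMap R k (c 1)) * X ^ d + C (algebraMap R k (c 2))).map
            (algebraMap k K'))) := by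
  classical
  have hFUN : S_FUN := Pool.Agent.Y674.PS.funct Pool.Agent.Y157.PS.a_inrt
  have hfinres := finite_residue v
  have hmax : v.asIdeal.IsMaximal := v.isMaximal
  let _ := Ideal.Quotient.field v.asIdeal
  obtain ⟨θ, hθ, hθr⟩ := exists_residue_map v
  have hθinj : Function.Injective θ := θ.injective
  have hγ2 : (exp (-2) : ℤᵐ⁰) < 1 := by
    rw [← exp_zero, exp_lt_exp]
    omega
  have hPv : ∀ r, vv v (algebraMap L (v.adicCompletion L) (P r)) ≤ 1 := fun r => by
    rw [vv_algebraMap]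
    exact hPint r
  have hψ1 : ∀ r, vv v (ψ (algebraMap R k r)) ≤ 1 := by
    intro r
    have h1 : ψ (algebraMap R k r) = (ψ (algebraMap R k r) -
      algebraMap L (v.adicCompletion L) (P r)) + algebraMap L (v.adicCompletion L) (P r) := by ring
    rw [h1]
    exact (Valuation.map_add _ _ _).trans (max_le ((hψ r).trans hγ2.le) (hPv r))
  have hnear : ∀ i, vv v (ψ (algebraMap R k (c i)) -
      algebraMap L (v.adicCompletion L) (algebraMap (𝓞 L) L (y i))) ≤ exp (-2) := by
    intro i
    have h1 : ψ (algebraMap R k (c i)) -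
        algebraMap L (v.adicCompletion L) (algebraMap (𝓞 L) L (y i)) =
        (ψ (algebraMap R k (c i)) - algebraMap L (v.adicCompletion L) (P (c i))) +
        algebraMap L (v.adicCompletion L) (P (c i) - algebraMap (𝓞 L) L (y i)) := by
      rw [map_sub]
      ring
    rw [h1]
    refine (Valuation.map_add _ _ _).trans (max_le (hψ _) ?_)
    rw [vv_algebraMap]
    exact hcy i
  let bB : (vv v).valuationSubring := ⟨ψ (algebraMap R k (c 1)), hψ1 _⟩
  let cB : (vv v).valuationSubring := ⟨ψ (algebraMap R k (c 2)), hψ1 _⟩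
  have hresb : IsLocalRing.residue _ bB = θ (Ideal.Quotient.mk v.asIdeal (y 1)) :=
    hθr _ _ ((hnear 1).trans_lt hγ2)
  have hresc : IsLocalRing.residue _ cB = θ (Ideal.Quotient.mk v.asIdeal (y 2)) :=
    hθr _ _ ((hnear 2).trans_lt hγ2)
  have hbar : IsLocalRing.residue (vv v).valuationSubring bB ≠ 0 := by
    rw [hresb, Ne, map_eq_zero_iff _ hθinj, Ideal.Quotient.eq_zero_iff_mem]
    exact hy1
  have hbU : IsUnit bB := by
    by_contra h6
    exact hbar ((IsLocalRing.residue_eq_zero_iff _).2 ((IsLocalRing.mem_maximalIdeal _).2 h6))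
  have hpowB : ∀ ℓ : ℕ, ℓ.Prime → ℓ ∣ d → ∀ r : IsLocalRing.ResidueField (vv v).valuationSubring,
      IsLocalRing.residue _ bB * r ^ ℓ + IsLocalRing.residue _ cB ≠ 0 := by
    intro ℓ hℓ hℓd r h
    obtain ⟨s, rfl⟩ := hθ r
    apply hpow ℓ hℓ hℓd s
    apply hθinj
    rw [map_add, map_mul, map_pow, map_zero, ← hresb, ← hresc]
    exact h
  obtain ⟨l0, hl0, hld0⟩ := Nat.exists_prime_and_dvd (show d ≠ 1 by omega)
  have hcar : IsLocalRing.residue (vv v).valuationSubring cB ≠ 0 := by
    intro h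
    apply hpowB l0 hl0 hld0 0
    rw [zero_pow hl0.ne_zero, mul_zero, zero_add, h]
  have hcU : IsUnit cB := by
    by_contra h6
    exact hcar ((IsLocalRing.residue_eq_zero_iff _).2 ((IsLocalRing.mem_maximalIdeal _).2 h6))
  have hbk : algebraMap R k (c 1) ≠ 0 := by
    intro h0
    apply hbU.ne_zero
    apply Subtype.ext
    change ψ (algebraMap R k (c 1)) = 0
    rw [h0, map_zero]
  have hck : algebraMap R k (c 2) ≠ 0 := by
    intro h0
    apply hcU.ne_zero
    apply Subtype.ext
    change ψ (algebraMap R k (c 2)) = 0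
    rw [h0, map_zero]
  have ha : vv v (ψ (algebraMap R k (c 0))) = exp (-1) := by
    have h5 : ψ (algebraMap R k (c 0)) = (ψ (algebraMap R k (c 0)) -
      algebraMap L (v.adicCompletion L) (algebraMap (𝓞 L) L (y 0))) +
      algebraMap L (v.adicCompletion L) (algebraMap (𝓞 L) L (y 0)) := by ring
    have h7 := val_eq_of v (y 0) hy hy'
    have h6 : vv v (ψ (algebraMap R k (c 0)) - algebraMap L (v.adicCompletion L)
        (algebraMap (𝓞 L) L (y 0))) <
        vv v (algebraMap L (v.adicCompletion L) (algebraMap (𝓞 L) L (y 0))) := by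
      rw [vv_algebraMap, h7]
      refine (hnear 0).trans_lt ?_
      rw [exp_lt_exp]
      omega
    rw [h5, Valuation.map_add_eq_of_lt_right _ h6, vv_algebraMap, h7]
  have hak : algebraMap R k (c 0) ≠ 0 := by
    intro h0
    rw [h0, map_zero, map_zero] at ha
    exact exp_ne_zero ha.symm
  -- the reduction
  obtain ⟨fB, hfB⟩ : ∃ fB : (vv v).valuationSubring[X], fB = C bB * X ^ d + C cB := ⟨_, rfl⟩
  have hBlc : IsUnit fB.leadingCoeff := by
    rw [hfB, binom_lc _ _ hbU.ne_zero _ (by omega)]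
    exact hbU
  have hBdeg : fB.natDegree = d := by rw [hfB, binom_natDegree _ _ hbU.ne_zero]
  have hcard : Nat.card (IsLocalRing.ResidueField (vv v).valuationSubring) = p := by
    rw [card_residue, hvp]
  have hdκ : (d : IsLocalRing.ResidueField (vv v).valuationSubring) ≠ 0 := by
    intro h0
    obtain ⟨e, he⟩ := hdp
    have h1 : ((p - 1 : ℕ) : IsLocalRing.ResidueField (vv v).valuationSubring) = 0 := by
      rw [he, Nat.cast_mul, h0, zero_mul]
    have h2 : (p : IsLocalRing.ResidueField (vv v).valuationSubring) = 0 := by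
      have hfin := Fintype.ofFinite (IsLocalRing.ResidueField (vv v).valuationSubring)
      rw [← hcard, Nat.card_eq_fintype_card]
      exact FiniteField.cast_card_eq_zero _
    rw [Nat.cast_sub hp.one_lt.le, h2, Nat.cast_one, zero_sub, neg_eq_zero] at h1
    exact one_ne_zero h1
  have hBmap : fB.map (IsLocalRing.residue (vv v).valuationSubring) =
      C (IsLocalRing.residue _ bB) * X ^ d + C (IsLocalRing.residue _ cB) := by
    rw [hfB, binom_map]
  have hBsep : (fB.map (IsLocalRing.residue (vv v).valuationSubring)).Separable := by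
    rw [hBmap]
    exact binom_sep _ _ hbar hcar d (by omega) hdκ
  have hcop : ∀ N : ℕ, 0 < N → N ∣ d → ∀ n : ℕ, ¬ N ∣ n → IsCoprime (X ^ (p ^ n) - X)
      (fB.map (IsLocalRing.residue (vv v).valuationSubring)) := fun N hN0 hN n hn => by
    rw [hBmap]
    exact coprime_binom p N d hcard hN0 (hN.trans hdp) hN _ _ hbar
      (fun ℓ hℓ hℓN => hpowB ℓ hℓ (hℓN.trans hN)) n hn
  -- the constant family
  set f : k[X] := C (algebraMap R k (c 1)) * X ^ d + C (algebraMap R k (c 2)) with hf
  have hfdeg : f.natDegree = d := binom_natDegree _ _ hbk _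
  have hf0 : f ≠ 0 := by
    intro h0
    rw [h0, natDegree_zero] at hfdeg
    omega
  set fR : R[X] := C (c 1) * X ^ d + C (c 2) with hfR
  have hfRf : fR.map (algebraMap R k) = f := by rw [hfR, binom_map]
  have hF' : (fR.map (C : R →+* R[X])).map (mapRingHom (algebraMap R k)) =
      (f.map (C : k →+* k[X])).map (mapRingHom (algebraMap k k)) := by
    have h1 : (mapRingHom (algebraMap R k)).comp (C : R →+* R[X]) =
        ((mapRingHom (algebraMap k k)).comp (C : k →+* k[X])).comp (algebraMap R k) := by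
      ext r
      simp
    rw [Polynomial.map_map, Polynomial.map_map, h1, ← Polynomial.map_map, hfRf]
  have hg' : (X : k[X]).map (algebraMap k k) = (X - C (algebraMap R k 0)) ^ 1 *
      (1 : R[X]).map (algebraMap R k) := by
    simp
  have hθ' : vv v (ψ (algebraMap R k ((1 : R[X]).eval 0))) = 1 := by
    rw [eval_one, map_one, map_one, map_one]
  have hFdeg : (f.map (C : k →+* k[X])).natDegree = d := by
    rw [natDegree_map_eq_of_injective C_injective, hfdeg]
  have hFt : ∀ t : k, (f.map (C : k →+* k[X])).map (evalRingHom t) = f := by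
    intro t
    have h1 : (evalRingHom t).comp (C : k →+* k[X]) = RingHom.id k := by
      ext r
      simp
    rw [Polynomial.map_map, h1, Polynomial.map_id]
  have hfRt : (fR.map (C : R →+* R[X])).map (evalRingHom 0) = fR := by
    have h1 : (evalRingHom 0).comp (C : R →+* R[X]) = RingHom.id R := by
      ext r
      simp
    rw [Polynomial.map_map, h1, Polynomial.map_id]
  have hgB : fB.map (algebraMap (vv v).valuationSubring (v.adicCompletion L)) =
      ((fR.map (C : R →+* R[X])).map (evalRingHom 0)).map (ψ.comp (algebraMap R k)) := by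
    rw [hfRt, hfR, hfB, binom_map, binom_map]
    rfl
  have hab : vv v (ψ (algebraMap R k (c 0 - 0 * 1))) = exp (-1) := by
    rw [zero_mul, sub_zero]
    exact ha
  have hb1 : algebraMap R k 1 = algebraMap k k 1 := by rw [map_one, map_one]
  have hVb : vv v (ψ (algebraMap R k 1)) = 1 := by rw [map_one, map_one, map_one]
  refine ⟨hak, hbk, hck, ?_, ?_⟩
  · intro ℓ hℓ hℓd K' _ _ _ hK'
    obtain ⟨-, h2⟩ := loc_ell hFUN ℓ p hℓ hp (L' := k) hinj (vv v) ψ (f.map C) X (fR.map C) 1 1 0
      hF' hg' hθ' hψ1 fB hgB hBlc (by rw [hBdeg, hFdeg]) hBsep hcard (hcop ℓ hℓ.pos hℓd)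
      (by rw [hFdeg]; exact h3) (algebraMap R k (c 0)) 1 (c 0) 1 rfl hb1 hVb hab
    have h4 := h2 (by
      have h5 : (ℓ : v.adicCompletion L) =
          algebraMap L (v.adicCompletion L) (algebraMap (𝓞 L) L ℓ) := by
        rw [map_natCast, map_natCast]
      rw [h5, vv_algebraMap]
      refine (HeightOneSpectrum.valuation_eq_one_iff_notMem v).2 fun h0 => hdκ ?_
      obtain ⟨n, hn⟩ := hℓd
      have h6 : (Ideal.Quotient.mk v.asIdeal) (ℓ : 𝓞 L) = 0 := Ideal.Quotient.eq_zero_iff_mem.2 h0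
      have h7 := congrArg θ h6
      rw [map_natCast, map_natCast, map_zero] at h7
      rw [hn, Nat.cast_mul, h7, zero_mul]) (by rw [hFdeg]; exact hℓd)
      (fun h5 => hℓ.one_lt.ne' (Nat.dvd_one.1 h5)) K' hK'
    rwa [hFt, eval_X, div_one] at h4
  · intro D hD0 hDd K' _ _ _ hK'
    obtain ⟨-, h2⟩ := loc_all p hp (L' := k) hinj (vv v) ψ (I := Unit) (fun _ => f.map C)
      (fun _ => (Polynomial.map_ne_zero_iff C_injective).2 hf0) X (fun _ => fR.map C) 1 1 0
      (fun _ => hF') hg' hθ' hψ1 fB (by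
        rw [Finset.univ_unique, Finset.prod_singleton]
        exact hgB) hBlc (by
        rw [Finset.univ_unique, Finset.prod_singleton, hBdeg, hFdeg]) hBsep hcard D hD0
      (hcop _ (Nat.mul_pos (Nat.gcd_pos_of_pos_left _ two_pos) (Nat.pos_of_ne_zero hD0)) hDd)
      (algebraMap R k (c 0)) 1 (c 0) 1 rfl hb1 hVb hab
    have h4 := h2 K' (by
      rw [Nat.cast_one, one_mul]
      exact hK')
    simp only [hFt, eval_X, div_one] at h4
    exact h4

end Pool.Agent.V11235.SK
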