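import Mathlib

/-! The polynomials `b X^m + c` over a finite field. -/

set_option autoImplicit false

namespace Pool.Agent.V11235.SK

open Polynomial

/-- if `-c/b` is not an `ℓ`-th power for all prime divisors `ℓ` of `N`, and `N` divides `q - 1` and
`m`, then `b X^m + c` is prime to `X^(q^n) - X` for all `n` that are not divisible by `N` -/
theorem coprime_binom {κ : Type} [Field κ] [Finite κ] (q N m : ℕ) (hq : Nat.card κ = q)
    (hN : 0 < N) (hNq : N ∣ q - 1) (hNm : N ∣ m) (b c : κ) (hb : b ≠ 0)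
    (hpow : ∀ ℓ : ℕ, ℓ.Prime → ℓ ∣ N → ∀ r : κ, b * r ^ ℓ + c ≠ 0) (n : ℕ) (hn : ¬ N ∣ n) :
    IsCoprime (X ^ (q ^ n) - X) (C b * X ^ m + C c : κ[X]) := by
  classical
  by_contra hcop
  have hfin := Fintype.ofFinite κ
  have hcard : Fintype.card κ = q := by rw [← hq, Nat.card_eq_fintype_card]
  have hN2 : 2 ≤ N := by
    by_contra h
    have h1 : N = 1 := by omega
    exact hn (by rw [h1]; exact one_dvd n)
  -- a common root
  obtain ⟨α, h1, h2⟩ : ∃ α : AlgebraicClosure κ, aeval α (X ^ (q ^ n) - X : κ[X]) = 0 ∧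
      aeval α (C b * X ^ m + C c : κ[X]) = 0 := by
    by_contra h
    push Not at h
    apply hcop
    rw [Polynomial.isCoprime_iff_aeval_ne_zero_of_isAlgClosed κ (AlgebraicClosure κ)]
    intro a
    by_cases h3 : aeval a (X ^ (q ^ n) - X : κ[X]) = 0
    · exact Or.inr (h a h3)
    · exact Or.inl h3
  simp only [map_sub, map_pow, aeval_X, map_add, map_mul, aeval_C] at h1 h2
  obtain ⟨m', hm'⟩ := hNm
  set y : AlgebraicClosure κ := α ^ m' with hy
  set b' := algebraMap κ (AlgebraicClosure κ) b with hb'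
  set c' := algebraMap κ (AlgebraicClosure κ) c with hc'
  have hb0 : b' ≠ 0 := by
    rw [hb', Ne, map_eq_zero_iff _ (algebraMap κ (AlgebraicClosure κ)).injective]
    exact hb
  have hyN : b' * y ^ N + c' = 0 := by
    rw [hy, ← pow_mul, mul_comm m' N, ← hm']
    exact h2
  have hc0 : c' ≠ 0 := by
    intro h0
    obtain ⟨ℓ, hℓ, hℓN⟩ := Nat.exists_prime_and_dvd (show N ≠ 1 by omega)
    apply hpow ℓ hℓ hℓN 0
    rw [zero_pow hℓ.ne_zero, mul_zero, zero_add]
    rw [hc', map_eq_zero_iff _ (algebraMap κ (AlgebraicClosure κ)).injective] at h0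
    exact h0
  have hy0 : y ≠ 0 := by
    intro h0
    rw [h0, zero_pow hN.ne', mul_zero, zero_add] at hyN
    exact hc0 hyN
  have hyq : y ^ (q ^ n) = y := by
    rw [hy, ← pow_mul, mul_comm, pow_mul]
    congr 1
    exact sub_eq_zero.1 h1
  -- an element is in `κ` if it is fixed by the Frobenius map
  have hfix : ∀ x : AlgebraicClosure κ, x ^ q = x → ∃ r : κ, algebraMap κ (AlgebraicClosure κ) r = x := by
    intro x hx
    have h3 : x ∈ ((X ^ q - X : κ[X]).map (algebraMap κ (AlgebraicClosure κ))).roots := by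
      rw [mem_roots']
      refine ⟨?_, ?_⟩
      · rw [Ne, Polynomial.map_eq_zero, ← hcard]
        exact FiniteField.X_pow_card_sub_X_ne_zero κ Fintype.one_lt_card
      · rw [IsRoot.def, Polynomial.map_sub, Polynomial.map_pow, map_X, eval_sub, eval_pow, eval_X,
          hx, sub_self]
    have h4 : (X ^ q - X : κ[X]).Splits := by
      rw [← hcard, Polynomial.splits_iff_card_roots, FiniteField.roots_X_pow_card_sub_X,
        FiniteField.X_pow_card_sub_X_natDegree_eq κ Fintype.one_lt_card]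
      rfl
    rw [h4.roots_map] at h3
    obtain ⟨r, -, hr⟩ := Multiset.mem_map.1 h3
    exact ⟨r, hr⟩
  set u : AlgebraicClosure κ := y ^ N with hu
  have huk : u ^ q = u := by
    have h3 : u = -c' / b' := by
      rw [eq_div_iff hb0]
      linear_combination hyN
    rw [h3, div_pow, neg_pow, hb', hc', ← map_pow, ← map_pow, ← hcard, FiniteField.pow_card,
      FiniteField.pow_card]
    have h4 : (-1 : AlgebraicClosure κ) ^ Fintype.card κ = -1 := by
      have h5 : ((-1 : κ)) ^ Fintype.card κ = -1 := FiniteField.pow_card _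
      have h6 := congrArg (algebraMap κ (AlgebraicClosure κ)) h5
      rwa [map_pow, map_neg, map_one] at h6
    rw [h4]
    ring
  have hq1 : 1 ≤ q := by
    rw [← hcard]
    exact Fintype.card_pos
  -- the root of unity
  set ζ : AlgebraicClosure κ := y ^ (q - 1) with hζ
  have hyζ : y ^ q = ζ * y := by
    rw [hζ, ← pow_succ, Nat.sub_add_cancel hq1]
  have hζN : ζ ^ N = 1 := by
    have h3 : ζ ^ N * u = u := by
      rw [hζ, hu, ← pow_mul, mul_comm (q - 1) N, pow_mul, ← pow_succ, Nat.sub_add_cancel hq1]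
      exact huk
    have hu0 : u ≠ 0 := pow_ne_zero _ hy0
    exact mul_right_cancel₀ hu0 (by rw [h3, one_mul])
  have hζq : ζ ^ q = ζ := by
    obtain ⟨e, he⟩ := hNq
    have h3 : ζ ^ (q - 1) = 1 := by rw [he, pow_mul, hζN, one_pow]
    calc ζ ^ q = ζ ^ (q - 1) * ζ := by rw [← pow_succ, Nat.sub_add_cancel hq1]
      _ = ζ := by rw [h3, one_mul]
  have hiter : ∀ j : ℕ, y ^ (q ^ j) = ζ ^ j * y := by
    intro j
    induction j with
    | zero => simp
    | succ j ih =>
      rw [pow_succ q j, pow_mul, ih, mul_pow, hyζ, ← pow_mul, mul_comm j q, pow_mul, hζq]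
      rw [pow_succ]
      ring
  have hζn : ζ ^ n = 1 := by
    have h3 := hiter n
    rw [hyq] at h3
    exact mul_right_cancel₀ hy0 (by rw [← h3, one_mul])
  -- its order is `N`
  have hord : orderOf ζ = N := by
    have h3 := orderOf_dvd_of_pow_eq_one hζN
    by_contra h4
    obtain ⟨e, he⟩ := h3
    have hepos : 0 < e := by
      rcases Nat.eq_zero_or_pos e with h | h
      · rw [h, mul_zero] at he
        omega
      · exact h
    have he1 : e ≠ 1 := by
      rintro rfl
      rw [mul_one] at he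
      exact h4 he.symm
    obtain ⟨ℓ, hℓ, hℓe⟩ := Nat.exists_prime_and_dvd he1
    obtain ⟨e', he'⟩ := hℓe
    have hNℓ : N = ℓ * (orderOf ζ * e') := by rw [he, he']; ring
    -- `y ^ (N / ℓ)` is in `κ`
    obtain ⟨r, hr⟩ := hfix (y ^ (orderOf ζ * e')) (by
      rw [← pow_mul, mul_comm, pow_mul, hyζ, mul_pow, pow_mul, pow_orderOf_eq_one, one_pow, one_mul])
    apply hpow ℓ hℓ ⟨_, hNℓ⟩ r
    apply (algebraMap κ (AlgebraicClosure κ)).injective
    rw [map_add, map_mul, map_pow, hr, map_zero, ← pow_mul, mul_comm _ ℓ, ← hNℓ]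
    exact hyN
  apply hn
  rw [← hord]
  exact orderOf_dvd_of_pow_eq_one hζn

/-- the counting of the pairs -/
theorem pairs_card {κ : Type} [Field κ] [Finite κ] (M : ℕ) (hM : 0 < M)
    (hMq : M ∣ Nat.card κ - 1) :
    (Nat.card κ - 1) ^ 2 ≤ M * {x : κ × κ | x.1 ≠ 0 ∧ ∀ ℓ : ℕ, ℓ.Prime → ℓ ∣ M → ∀ r : κ,
      x.1 * r ^ ℓ + x.2 ≠ 0}.ncard := by
  classical
  have hfin := Fintype.ofFinite κ
  obtain ⟨g, hg⟩ := IsCyclic.exists_generator (α := κˣ)
  -- the coset
  set U : Set κˣ := Set.range fun s : κˣ => g * s ^ M with hU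
  have hUcard : Nat.card κˣ ≤ M * U.ncard := by
    have h1 : (Finset.univ : Finset κˣ).card ≤ M * (Finset.univ.image fun s : κˣ => g * s ^ M).card := by
      refine Finset.card_le_mul_card_image_of_maps_to (f := fun s : κˣ => g * s ^ M)
        (fun s _ => Finset.mem_image_of_mem (fun s : κˣ => g * s ^ M) (Finset.mem_univ s)) M ?_
      intro t ht
      obtain ⟨s0, -, hs0⟩ := Finset.mem_image.1 ht
      have h2 : (Finset.univ.filter fun s : κˣ => g * s ^ M = t).card ≤
          (Finset.univ.filter fun s : κˣ => s ^ M = 1).card := by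
        refine Finset.card_le_card_of_injOn (fun s => s * s0⁻¹) ?_ ?_
        · intro s hs
          rw [Finset.mem_coe, Finset.mem_filter] at hs ⊢
          refine ⟨Finset.mem_univ _, ?_⟩
          have h3 : g * s ^ M = g * s0 ^ M := hs.2.trans hs0.symm
          have h4 : s ^ M = s0 ^ M := mul_left_cancel h3
          rw [mul_pow, inv_pow, h4, mul_inv_cancel]
        · intro s _ s' _ h
          exact mul_right_cancel h
      exact h2.trans (by
        have := IsCyclic.card_pow_eq_one_le (α := κˣ) hM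
        exact this)
    rw [Finset.card_univ, ← Nat.card_eq_fintype_card] at h1
    have h2 : (Finset.univ.image fun s : κˣ => g * s ^ M).card = U.ncard := by
      rw [← Set.ncard_coe_finset]
      congr 1
      rw [Finset.coe_image, Finset.coe_univ, Set.image_univ]
    rwa [h2] at h1
  have hUpow : ∀ t ∈ U, ∀ ℓ : ℕ, ℓ.Prime → ℓ ∣ M → ∀ r : κˣ, t ≠ r ^ ℓ := by
    rintro _ ⟨s, rfl⟩ ℓ hℓ hℓM r h
    obtain ⟨e, rfl⟩ := hℓM
    have h1 : g = (r * (s ^ e)⁻¹) ^ ℓ := by
      rw [mul_pow, inv_pow, ← pow_mul, mul_comm e ℓ, ← h, mul_assoc, mul_inv_cancel, mul_one]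
    have hord : orderOf g = Nat.card κˣ := orderOf_eq_card_of_forall_mem_zpowers hg
    have h2 : ℓ ∣ Nat.card κˣ := by
      rw [Nat.card_units]
      exact (Dvd.intro _ rfl).trans hMq
    obtain ⟨f, hf⟩ := h2
    have h3 : g ^ f = 1 := by
      rw [h1, ← pow_mul, ← hf]
      exact pow_card_eq_one'
    have h4 := orderOf_dvd_of_pow_eq_one h3
    rw [hord, hf] at h4
    have hf0 : 0 < f := by
      rcases Nat.eq_zero_or_pos f with h | h
      · rw [h, mul_zero] at hf
        exact absurd hf Nat.card_pos.ne'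
      · exact h
    have h5 := Nat.le_of_dvd hf0 h4
    have h6 := hℓ.two_le
    nlinarith
  -- the pairs
  set A := {x : κ × κ | x.1 ≠ 0 ∧ ∀ ℓ : ℕ, ℓ.Prime → ℓ ∣ M → ∀ r : κ, x.1 * r ^ ℓ + x.2 ≠ 0} with hA
  have hle : ((Set.univ : Set κˣ) ×ˢ U).ncard ≤ A.ncard := by
    refine Set.ncard_le_ncard_of_injOn (fun x => ((x.1 : κ), -((x.1 : κ) * (x.2 : κ)))) ?_ ?_
      (Set.toFinite _)
    · rintro ⟨x, t⟩ ⟨-, ht⟩
      refine ⟨x.ne_zero, fun ℓ hℓ hℓM r h => ?_⟩
      have h1 : r ^ ℓ = (t : κ) := by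
        have h2 : (x : κ) * (r ^ ℓ - t) = 0 := by linear_combination h
        rcases mul_eq_zero.1 h2 with h3 | h3
        · exact absurd h3 x.ne_zero
        · exact sub_eq_zero.1 h3
      have hr0 : r ≠ 0 := by
        intro h2
        rw [h2, zero_pow hℓ.ne_zero] at h1
        exact t.ne_zero h1.symm
      refine hUpow t ht ℓ hℓ hℓM (Units.mk0 r hr0) ?_
      apply Units.ext
      rw [Units.val_pow_eq_pow_val, Units.val_mk0]
      exact h1.symm
    · rintro ⟨x, t⟩ - ⟨x', t'⟩ - h
      simp only [Prod.mk.injEq, neg_inj] at h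
      obtain ⟨h1, h2⟩ := h
      have h3 : x = x' := Units.ext h1
      subst h3
      have h4 : t = t' := Units.ext (mul_left_cancel₀ x.ne_zero h2)
      rw [h4]
  rw [Set.ncard_prod, Set.ncard_univ] at hle
  have h1 : Nat.card κˣ = Nat.card κ - 1 := Nat.card_units κ
  calc (Nat.card κ - 1) ^ 2 = Nat.card κˣ * Nat.card κˣ := by rw [h1]; ring
    _ ≤ Nat.card κˣ * (M * U.ncard) := Nat.mul_le_mul_left _ hUcard
    _ = M * (Nat.card κˣ * U.ncard) := by ring
    _ ≤ M * A.ncard := Nat.mul_le_mul_left _ hle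

end Pool.Agent.V11235.SK
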