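import Pool.Agent.TH120.Sec.DiagCount
import Pool.Agent.V11235.SK.Kum

/-!
# Counting for diagonal curves, after `Pool.Agent.TH120.Sec.good_card`
-/

set_option autoImplicit false

namespace Pool.Agent.V11235.SK

open NumberField IsDedekindDomain Pool.Agent.TH120.Sec

/-- the pairs for which the binomial has only factors of degree divisible by `M` -/
def PP (κ : Type) [Field κ] (M : ℕ) : Set (κ × κ) :=
  {x : κ × κ | x.1 ≠ 0 ∧ ∀ ℓ : ℕ, ℓ.Prime → ℓ ∣ M → ∀ r : κ, x.1 * r ^ ℓ + x.2 ≠ 0}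

variable {K : Type} [Field K] [NumberField K] (v : HeightOneSpectrum (𝓞 K))

/-- the good triples of coefficients modulo `v ^ 2` -/
def GoodD (M : ℕ) : Set (Fin 3 → 𝓞 K ⧸ v.asIdeal ^ 2) :=
  {x | pr v (x 0) = 0 ∧ x 0 ≠ 0 ∧ pr v (x 1) ≠ 0 ∧ ∀ ℓ : ℕ, ℓ.Prime → ℓ ∣ M →
    ∀ r, pr v (x 1) * r ^ ℓ + pr v (x 2) ≠ 0}

omit [NumberField K] in
lemma goodD_iff (M : ℕ) (y : Fin 3 → 𝓞 K) (hy : red (v.asIdeal ^ 2) 3 y ∈ GoodD v M) :
    y 0 ∈ v.asIdeal ∧ y 0 ∉ v.asIdeal ^ 2 ∧ y 1 ∉ v.asIdeal ∧ ∀ ℓ : ℕ, ℓ.Prime → ℓ ∣ M →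
      ∀ r : 𝓞 K ⧸ v.asIdeal, Ideal.Quotient.mk v.asIdeal (y 1) * r ^ ℓ +
        Ideal.Quotient.mk v.asIdeal (y 2) ≠ 0 := by
  obtain ⟨h1, h2, h3, h4⟩ := hy
  refine ⟨?_, ?_, ?_, h4⟩
  · exact Ideal.Quotient.eq_zero_iff_mem.1 h1
  · exact fun h => h2 (Ideal.Quotient.eq_zero_iff_mem.2 h)
  · exact fun h => h3 (Ideal.Quotient.eq_zero_iff_mem.2 h)

lemma goodD_card (M : ℕ) (hM : 0 < M) (hd : M ∣ Ideal.absNorm v.asIdeal - 1) :
    (Ideal.absNorm v.asIdeal - 1) ^ 3 * Ideal.absNorm v.asIdeal ^ 2 ≤ M * (GoodD v M).ncard := by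
  classical
  have hfin := finite_sq v
  have hmax : v.asIdeal.IsMaximal := v.isMaximal
  have hfin' : Finite (𝓞 K ⧸ v.asIdeal) := Ideal.finiteQuotientOfFreeOfNeBot _ v.ne_bot
  let _ : Field (𝓞 K ⧸ v.asIdeal) := Ideal.Quotient.field _
  set N := Ideal.absNorm v.asIdeal with hN
  have hq := pairs_card (κ := 𝓞 K ⧸ v.asIdeal) M hM (by rw [card_residue]; exact hd)
  rw [card_residue, ← hN] at hq
  change (N - 1) ^ 2 ≤ M * (PP (𝓞 K ⧸ v.asIdeal) M).ncard at hq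
  set J : Set (𝓞 K ⧸ v.asIdeal ^ 2) := {x | pr v x = 0} with hJ
  have hJc : J.ncard = N := ker_ncard v
  have hJ0 : (J \ {0}).ncard = N - 1 := by
    rw [Set.ncard_sdiff_singleton_of_mem (show (0 : 𝓞 K ⧸ v.asIdeal ^ 2) ∈ J from map_zero _), hJc]
  let s := Function.surjInv (pr_surj v)
  have hs : ∀ x, pr v (s x) = x := Function.surjInv_eq (pr_surj v)
  have h1 : (((J \ {0}) ×ˢ (PP (𝓞 K ⧸ v.asIdeal) M)) ×ˢ (J ×ˢ J)).ncard ≤ (GoodD v M).ncard := by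
    refine Set.ncard_le_ncard_of_injOn
      (fun x => ![x.1.1, s x.1.2.1 + x.2.1, s x.1.2.2 + x.2.2]) ?_ ?_ (Set.toFinite _)
    · rintro ⟨⟨j, b, c⟩, j1, j2⟩ ⟨⟨hj, hbc⟩, hj1, hj2⟩
      have e1 : pr v (s b + j1) = b := by
        rw [map_add, hs, show pr v j1 = 0 from hj1, add_zero]
      have e2 : pr v (s c + j2) = c := by
        rw [map_add, hs, show pr v j2 = 0 from hj2, add_zero]
      refine ⟨hj.1, hj.2, ?_, ?_⟩
      · change pr v (s b + j1) ≠ 0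
        rw [e1]
        exact hbc.1
      · intro ℓ hℓ hℓM r
        change pr v (s b + j1) * r ^ ℓ + pr v (s c + j2) ≠ 0
        rw [e1, e2]
        exact hbc.2 ℓ hℓ hℓM r
    · rintro ⟨⟨j, b, c⟩, j1, j2⟩ ⟨⟨hj, hbc⟩, hj1, hj2⟩ ⟨⟨j', b', c'⟩, j1', j2'⟩
        ⟨⟨hj', hbc'⟩, hj1', hj2'⟩ h
      have h0 : j = j' := congrFun h 0
      have h1 : s b + j1 = s b' + j1' := congrFun h 1
      have h2 : s c + j2 = s c' + j2' := congrFun h 2
      have e1 : b = b' := by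
        have := congrArg (pr v) h1
        rwa [map_add, map_add, hs, hs, show pr v j1 = 0 from hj1, show pr v j1' = 0 from hj1',
          add_zero, add_zero] at this
      have e2 : c = c' := by
        have := congrArg (pr v) h2
        rwa [map_add, map_add, hs, hs, show pr v j2 = 0 from hj2, show pr v j2' = 0 from hj2',
          add_zero, add_zero] at this
      subst h0 e1 e2
      rw [add_right_inj] at h1 h2
      rw [h1, h2]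
  rw [Set.ncard_prod, Set.ncard_prod, Set.ncard_prod, hJc, hJ0] at h1
  calc (N - 1) ^ 3 * N ^ 2 = (N - 1) * (N - 1) ^ 2 * (N * N) := by ring
    _ ≤ (N - 1) * (M * (PP (𝓞 K ⧸ v.asIdeal) M).ncard) * (N * N) := by
        gcongr
    _ = M * ((N - 1) * (PP (𝓞 K ⧸ v.asIdeal) M).ncard * (N * N)) := by ring
    _ ≤ M * (GoodD v M).ncard := Nat.mul_le_mul_left _ h1

/-- the complement of the good triples -/
lemma badD_card (M : ℕ) (hM : 0 < M) (hd : M ∣ Ideal.absNorm v.asIdeal - 1) :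
    (((GoodD v M)ᶜ).ncard : ℝ) ≤ (1 - (1 / (4 * M)) * (1 / (Ideal.absNorm v.asIdeal : ℝ) -
      1 / (Ideal.absNorm v.asIdeal : ℝ) ^ 2)) * ((Ideal.absNorm v.asIdeal : ℝ) ^ 2) ^ 3 := by
  classical
  have hfin := finite_sq v
  have h1 := goodD_card v M hM hd
  have h2 : (GoodD v M).ncard + ((GoodD v M)ᶜ).ncard = (Ideal.absNorm v.asIdeal ^ 2) ^ 3 := by
    rw [Set.ncard_add_ncard_compl, Nat.card_fun, Pool.Agent.W417.SecC.D2.card_sq, Nat.card_fin]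
  set N := Ideal.absNorm v.asIdeal with hN
  have hN2 : 2 ≤ N := by
    by_contra h
    have h3 : N = 0 ∨ N = 1 := by omega
    rcases h3 with h3 | h3
    · exact absurd h3 (Pool.Agent.W417.SecC.D2.norm_pos v).ne'
    · rw [hN, Ideal.absNorm_eq_one_iff] at h3
      exact v.isPrime.ne_top h3
  obtain ⟨m, hm⟩ : ∃ m, N = m + 2 := ⟨N - 2, by omega⟩
  have h3 : ((GoodD v M).ncard : ℝ) + (((GoodD v M)ᶜ).ncard : ℝ) = ((N : ℝ) ^ 2) ^ 3 := by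
    exact_mod_cast h2
  have h4 : ((N : ℝ) - 1) ^ 3 * (N : ℝ) ^ 2 ≤ M * ((GoodD v M).ncard : ℝ) := by
    have h5 : ((N - 1 : ℕ) : ℝ) = (N : ℝ) - 1 := by
      rw [Nat.cast_sub (by omega)]
      norm_num
    rw [← h5]
    exact_mod_cast h1
  have hNr : (2 : ℝ) ≤ N := by exact_mod_cast hN2
  have hM0 : (0 : ℝ) < M := by exact_mod_cast hM
  have h6 : (1 - (1 / (4 * M)) * (1 / (N : ℝ) - 1 / (N : ℝ) ^ 2)) * ((N : ℝ) ^ 2) ^ 3 =
      ((N : ℝ) ^ 2) ^ 3 - (1 / M) * ((1 / 4) * ((N : ℝ) - 1) * (N : ℝ) ^ 4) := by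
    field_simp
  rw [h6]
  have h7 : (1 / 4) * ((N : ℝ) - 1) * (N : ℝ) ^ 4 ≤ ((N : ℝ) - 1) ^ 3 * (N : ℝ) ^ 2 := by
    have h8 : (1 / 4) * (N : ℝ) ^ 2 ≤ ((N : ℝ) - 1) ^ 2 := by nlinarith
    have h9 : 0 ≤ ((N : ℝ) - 1) * (N : ℝ) ^ 2 := by
      apply mul_nonneg
      · linarith
      · exact sq_nonneg _
    nlinarith [mul_le_mul_of_nonneg_left h8 h9]
  have h8 : (1 / M) * ((1 / 4) * ((N : ℝ) - 1) * (N : ℝ) ^ 4) ≤ ((GoodD v M).ncard : ℝ) := by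
    rw [one_div_mul_eq_div, div_le_iff₀ hM0, mul_comm _ (M : ℝ)]
    exact h7.trans h4
  linarith

end Pool.Agent.V11235.SK
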