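import Pool.Agent.V11235.SK.Spec
import Pool.Agent.V11235.SK.Dens
import Pool.Agent.V11235.SK.Good
import Pool.Agent.V11235.SK.Emb
import Pool.Agent.V11235.SK.Supply

/-! Density of the diagonal curves without points and sections over extensions. -/

set_option autoImplicit false

namespace Pool.Agent.V11235.SK

open Polynomial WithZero NumberField IsDedekindDomain Pool.Agent.W858.SF Pool.Agent.W858.SG
open Pool.Agent.V11235.SH Pool.Agent.Y157.PS

/-- all the assertions about the curves `a y^n = b x^d + c` over all extensions of `k` -/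
def GoodB {R : Type} [CommRing R] (k : Type) [Field k] [Algebra R k] (d : ℕ)
    (c : Fin 3 → R) : Prop :=
  algebraMap R k (c 0) ≠ 0 ∧ algebraMap R k (c 1) ≠ 0 ∧ algebraMap R k (c 2) ≠ 0 ∧
    (∀ ℓ : ℕ, ℓ.Prime → ℓ ∣ d → ∀ (K' : Type) [Field K'] [Algebra k K'] [FiniteDimensional k K'],
      ¬ ℓ ∣ Module.finrank k K' → FineP ℓ (algebraMap k K' (algebraMap R k (c 0)))
        ((C (algebraMap R k (c 1)) * X ^ d + C (algebraMap R k (c 2))).map (algebraMap k K'))) ∧
    (∀ D : ℕ, D ≠ 0 → Nat.gcd 2 D * D ∣ d → ∀ (K' : Type) [Field K'] [Algebra k K']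
      [FiniteDimensional k K'], ¬ (D : ℤ) ∣ (Module.finrank k K' : ℤ) →
        Data D K' (algebraMap k K' (algebraMap R k (c 0)))
          (fun _ : Unit => (C (algebraMap R k (c 1)) * X ^ d + C (algebraMap R k (c 2))).map
            (algebraMap k K')))

theorem density_diag {R k : Type} [CommRing R] [IsDomain R] [CharZero R] [Algebra.FiniteType ℤ R]
    [Field k] [Algebra R k] [IsFractionRing R k] (d : ℕ) (hd : 3 ≤ d) (ε : ℝ) (hε : 0 < ε) :
    ∃ I : Ideal R, Finite (R ⧸ I) ∧
      (Set.ncard ((fun (c : Fin 3 → R) i => Ideal.Quotient.mk I (c i)) ''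
        {c | ¬ GoodB k d c}) : ℝ) ≤ ε * (Nat.card (R ⧸ I) : ℝ) ^ 3 := by
  classical
  have hcz : CharZero k := charZero_of_injective_algebraMap (IsFractionRing.injective R k)
  obtain ⟨L, _, _, P, hemb, hM⟩ := spec_all (R := R) (k := k)
  obtain ⟨N1, hN1, hemb⟩ := hemb
  have hdr : (0 : ℝ) < d := by
    have : 0 < d := by omega
    exact_mod_cast this
  have hδ1 : (1 / (4 * d) : ℝ) ≤ 1 := by
    rw [div_le_one (by positivity)]
    have : (3 : ℝ) ≤ d := by exact_mod_cast hd
    linarith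
  refine density_gen P ⟨N1, hN1, fun v hv => (hemb v hv).1⟩ hM 3 (GoodB k d)
    (fun v => GoodD v d)
    (fun v => d ∣ Ideal.absNorm v.asIdeal - 1 ∧ (Ideal.absNorm v.asIdeal).Prime)
    (1 / (4 * d)) ?_ ?_ ?_ ε hε
  · intro D hD ε hε
    exact supply_order d (by omega) D hD _ (by positivity) hδ1 ε hε
  · intro v hv
    exact badD_card v d (by omega) hv.1
  · refine ⟨N1, hN1, fun v hv hQ c y hcy hy => ?_⟩
    obtain ⟨hint, ψ, hψ⟩ := hemb v hv
    obtain ⟨g1, g2, g3, g4⟩ := goodD_iff v d y hy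
    exact emb_diag v _ hQ.2 rfl (IsFractionRing.injective R k) P ψ hint hψ hd hQ.1 c y hcy g1 g2
      g3 g4

end Pool.Agent.V11235.SK
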